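import Pool.Agent.BLP.StmtsA

namespace Pool.Agent.BLP.H50

open MeasureTheory ProbabilityTheory Filter Topology Finset
open scoped ENNReal

theorem a_exi (hE : EnaStmt) (hP : PabStmt) (hB : BddStmt) : ExiStmt := by
  intro b hb m n s t hmn hst
  obtain ⟨⟨τ₀, hτ₀⟩, hle, hge⟩ := hB b hb m n s t hmn hst
  -- every path can be modified
  have hmod : ∀ τ, Pa m s n t τ → ∃ σ, Pa m s n t σ ∧ (∀ r, σ r ∈ Set.Icc s t) ∧
      En b σ m n = En b τ m n := by
    intro τ hτ
    obtain ⟨h1, h2, h3⟩ := hP m n s t τ hτ hmn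
    refine ⟨fun r => if m - 1 ≤ r ∧ r ≤ n then τ r else s, ⟨?_, ?_, ?_⟩, ?_, ?_⟩
    · have : m - 1 ≤ m - 1 ∧ m - 1 ≤ n := ⟨le_refl _, by omega⟩
      simp only [this, and_self, if_true]
      exact hτ.1
    · have : m - 1 ≤ n ∧ n ≤ n := ⟨by omega, le_refl _⟩
      simp only [this, and_self, if_true]
      exact hτ.2.1
    · intro r hr1 hr2
      have h4 : m - 1 ≤ r ∧ r ≤ n := ⟨by omega, hr2⟩
      have h5 : m - 1 ≤ r - 1 ∧ r - 1 ≤ n := ⟨by omega, by omega⟩
      simp only [h4, h5, and_self, if_true]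
      exact hτ.2.2 r hr1 hr2
    · intro r
      by_cases h4 : m - 1 ≤ r ∧ r ≤ n
      · simp only [h4, and_self, if_true]
        exact h2 r h4.1 h4.2
      · simp only [h4, if_false]
        exact ⟨le_refl _, hst⟩
    · apply (hE b τ m n).2.2
      intro r hr1 hr2
      have h4 : m - 1 ≤ r ∧ r ≤ n := ⟨hr1, hr2⟩
      simp only [h4, and_self, if_true]
  let K : Set (ℤ → ℝ) := {τ | Pa m s n t τ} ∩ Set.pi Set.univ (fun _ => Set.Icc s t)
  have hKc : IsCompact K := by
    apply IsCompact.inter_left (isCompact_univ_pi (fun _ => isCompact_Icc))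
    have e1 : {τ : ℤ → ℝ | Pa m s n t τ} = {τ : ℤ → ℝ | τ (m - 1) = s} ∩ ({τ : ℤ → ℝ | τ n = t} ∩
        ⋂ r : ℤ, {τ : ℤ → ℝ | m ≤ r → r ≤ n → τ (r - 1) ≤ τ r}) := by
      ext τ
      simp only [Pa, Set.mem_ofPred_eq, Set.mem_inter_iff, Set.mem_iInter]
    rw [e1]
    apply IsClosed.inter
    · exact isClosed_eq (continuous_apply _) continuous_const
    apply IsClosed.inter
    · exact isClosed_eq (continuous_apply _) continuous_const
    apply isClosed_iInter
    intro r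
    by_cases hr : m ≤ r ∧ r ≤ n
    · have : {τ : ℤ → ℝ | m ≤ r → r ≤ n → τ (r - 1) ≤ τ r} = {τ : ℤ → ℝ | τ (r - 1) ≤ τ r} := by
        ext τ; simp [hr.1, hr.2]
      rw [this]
      exact isClosed_le (continuous_apply _) (continuous_apply _)
    · have : {τ : ℤ → ℝ | m ≤ r → r ≤ n → τ (r - 1) ≤ τ r} = Set.univ := by
        ext τ
        simp only [Set.mem_ofPred_eq, Set.mem_univ, iff_true]
        intro h1 h2
        exact absurd ⟨h1, h2⟩ hr
      rw [this]
      exact isClosed_univ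
  have hcont : ContinuousOn (fun τ : ℤ → ℝ => En b τ m n) K := by
    apply Continuous.continuousOn
    unfold En
    apply continuous_finsetSum
    intro r _
    exact ((hb r).comp (continuous_apply r)).sub ((hb r).comp (continuous_apply (r - 1)))
  have hne : K.Nonempty := by
    obtain ⟨σ, h1, h2, _⟩ := hmod τ₀ hτ₀
    exact ⟨σ, h1, fun r _ => h2 r⟩
  obtain ⟨τ, hτK, hmax⟩ := hKc.exists_isMaxOn hne hcont
  refine ⟨τ, hτK.1, le_antisymm (hle τ hτK.1) (hge _ ?_)⟩
  intro ρ hρ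
  obtain ⟨σ, h1, h2, h3⟩ := hmod ρ hρ
  rw [← h3]
  exact hmax ⟨h1, fun r _ => h2 r⟩

end Pool.Agent.BLP.H50
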