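import Pool.Agent.BLP.StmtsA

namespace Pool.Agent.BLP.H50

open MeasureTheory ProbabilityTheory Filter Topology Finset
open scoped ENNReal

theorem a_rat (hE : EnaStmt) (hP : PabStmt) (hO : OneStmt) (hX : ExiStmt) : RatStmt := by
  intro b hb m n s t C hmn hst hC
  rcases hst.eq_or_lt with h | h
  · -- s = t
    subst h
    rw [(hO b).2 m n s hmn] at hC
    refine ⟨fun r => if n ≤ r then 1 else 0, ?_, ?_, ?_, ?_, ?_⟩
    · intro r
      by_cases hr : n ≤ r <;> simp [hr]
    · intro r hr
      have : ¬ n ≤ r := by omega
      simp [this]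
    · intro r hr
      simp [hr]
    · intro r _ _
      by_cases h1 : n ≤ r - 1
      · have : n ≤ r := by omega
        simp [h1, this]
      · by_cases h2 : n ≤ r <;> simp [h1, h2]
    · unfold En
      simpa using hC
  · obtain ⟨τ, hτ, hopt⟩ := hX b hb m n s t hmn hst
    obtain ⟨h1, h2, h3⟩ := hP m n s t τ hτ hmn
    have hd : 0 < t - s := by linarith
    -- the relative positions
    let a : ℤ → ℝ := fun r => if r < m then 0 else if n ≤ r then 1 else (τ r - s) / (t - s)
    have ha01 : ∀ r, 0 ≤ a r ∧ a r ≤ 1 := by
      intro r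
      simp only [a]
      by_cases hr : r < m
      · simp [hr]
      · by_cases hr2 : n ≤ r
        · simp [hr, hr2]
        · simp only [hr, hr2, if_false]
          have := h2 r (by omega) (by omega)
          refine ⟨div_nonneg (by linarith) hd.le, (div_le_one hd).2 (by linarith)⟩
    have hapos : ∀ r, m - 1 ≤ r → r ≤ n → s + a r * (t - s) = τ r := by
      intro r hr1 hr2
      simp only [a]
      by_cases hr : r < m
      · have hrr : r = m - 1 := by omega
        simp only [hr, if_true]
        rw [hrr, hτ.1]; ring
      · by_cases hr3 : n ≤ r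
        · have hrr : r = n := by omega
          simp only [hr, hr3, if_false, if_true]
          rw [hrr, hτ.2.1]; ring
        · simp only [hr, hr3, if_false]
          field_simp
          ring
    have hamono : ∀ r, m ≤ r → r ≤ n → a (r - 1) ≤ a r := by
      intro r hr1 hr2
      have e1 := hapos r (by omega) hr2
      have e2 := hapos (r - 1) (by omega) (by omega)
      have e3 := hτ.2.2 r hr1 hr2
      by_contra hcon
      push Not at hcon
      nlinarith
    let Q : ℕ → ℤ → ℚ := fun N r => (⌊a r * N⌋₊ : ℚ) / N
    have hQlim : ∀ r, Tendsto (fun N : ℕ => ((Q N r : ℚ) : ℝ)) atTop (𝓝 (a r)) := by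
      intro r
      have := (tendsto_nat_floor_mul_div_atTop (R := ℝ) (ha01 r).1).comp
        (tendsto_natCast_atTop_atTop (R := ℝ))
      refine this.congr (fun N => ?_)
      simp [Q]
    have hlim : Tendsto (fun N : ℕ => En b (fun r => s + Q N r * (t - s)) m n) atTop
        (𝓝 (En b (fun r => s + a r * (t - s)) m n)) := by
      unfold En
      apply tendsto_finsetSum
      intro r _
      have hh : ∀ k : ℤ, Tendsto (fun N : ℕ => b r (s + (Q N k : ℝ) * (t - s))) atTop
          (𝓝 (b r (s + a k * (t - s)))) := by
        intro k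
        have hc : Continuous (fun x : ℝ => b r (s + x * (t - s))) :=
          (hb r).comp (continuous_const.add (continuous_id.mul continuous_const))
        exact (hc.tendsto (a k)).comp (hQlim k)
      exact (hh r).sub (hh (r - 1))
    have hEn : En b (fun r => s + a r * (t - s)) m n = L b m s n t := by
      rw [← hopt]
      exact (hE b τ m n).2.2 _ hapos
    rw [hEn] at hlim
    have hev := (hlim.eventually (lt_mem_nhds hC)).and (eventually_ge_atTop 1)
    obtain ⟨N, hN, hN1⟩ := hev.exists
    have hN0 : (0 : ℚ) < N := by exact_mod_cast hN1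
    refine ⟨Q N, ?_, ?_, ?_, ?_, hN⟩
    · intro r
      simp only [Q]
      refine ⟨by positivity, ?_⟩
      rw [div_le_one hN0]
      have : (⌊a r * N⌋₊ : ℝ) ≤ N :=
        (Nat.floor_le (mul_nonneg (ha01 r).1 (Nat.cast_nonneg _))).trans
          (by nlinarith [(ha01 r).2, (Nat.cast_nonneg N : (0 : ℝ) ≤ N)])
      exact_mod_cast this
    · intro r hr
      have : a r = 0 := by simp [a, hr]
      simp [Q, this]
    · intro r hr
      have : a r = 1 := by
        have : ¬ r < m := by omega
        simp [a, hr, this]
      simp only [Q, this, one_mul, Nat.floor_natCast]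
      exact div_self hN0.ne'
    · intro r hr1 hr2
      simp only [Q]
      have : ⌊a (r - 1) * N⌋₊ ≤ ⌊a r * N⌋₊ :=
        Nat.floor_mono (mul_le_mul_of_nonneg_right (hamono r hr1 hr2) (Nat.cast_nonneg _))
      have h5 : ((⌊a (r - 1) * N⌋₊ : ℕ) : ℚ) ≤ ((⌊a r * N⌋₊ : ℕ) : ℚ) := by exact_mod_cast this
      exact div_le_div_of_nonneg_right h5 hN0.le

end Pool.Agent.BLP.H50
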